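import Pool.Agent.Helper35.HS3.GoalsD

set_option autoImplicit false

namespace Pool.Agent.Helper31.HS3.FQH

open MeasureTheory Set Filter Topology Metric
open scoped ContDiff
open Pool.Agent.Helper35.HS3

theorem continuous_bw (r : ℝ) : Continuous (bw r) := by
  unfold bw
  fun_prop

theorem bw_nonneg (r : ℝ) (x : E) : 0 ≤ bw r x := le_max_left _ _

theorem bw_eq_zero {r : ℝ} (hr : 0 < r) {x : E} (hx : r ≤ ‖x‖) : bw r x = 0 := by
  unfold bw
  apply max_eq_left
  nlinarith

theorem integrable_bw {r : ℝ} (hr : 0 < r) {g : E → ℝ} (hg : Continuous g) (n : ℕ) (hn : n ≠ 0) :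
    Integrable (fun x => g x * bw r x ^ n) := by
  refine (hg.mul ((continuous_bw r).pow n)).integrable_of_hasCompactSupport ?_
  refine HasCompactSupport.intro (isCompact_closedBall (0 : E) r) ?_
  intro x hx
  have h : r ≤ ‖x‖ := by
    by_contra hcon
    push Not at hcon
    exact hx (by simpa using hcon.le)
  show g x * bw r x ^ n = 0
  rw [bw_eq_zero hr h, zero_pow hn, mul_zero]

theorem proof : FQG_stmt → FQA_stmt → FQH_stmt := by
  intro hG hA v κ r hv hκ hr
  have hv1 : ContDiff ℝ 1 v := hv.of_le (by norm_num)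
  have cv : Continuous v := hv.continuous
  have cf : Continuous (fun x : E => fderiv ℝ v x x) :=
    (hv1.continuous_fderiv (by norm_num)).clm_apply continuous_id
  have cg : Continuous (gsq v) := continuous_gsq hv1
  obtain ⟨a1, a2, a3⟩ := hA v κ r hv hr
  set M : ℝ := ∫ x, (v x * fderiv ℝ v x x + κ * ‖x‖ ^ 2) * bw r x ^ 2 with hM
  refine ⟨?_, ?_, ?_⟩
  · have hφ : ContDiff ℝ 1 (fun x : E => v x ^ 2 + κ * ‖x‖ ^ 2) :=
      (hv1.pow 2).add (contDiff_const.mul (contDiff_norm_sq ℝ))
    have h := hG (fun x : E => v x ^ 2 + κ * ‖x‖ ^ 2) 2 r hφ (by norm_num) hr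
    have hder : ∀ x : E, fderiv ℝ (fun x : E => v x ^ 2 + κ * ‖x‖ ^ 2) x x =
        2 * (v x * fderiv ℝ v x x + κ * ‖x‖ ^ 2) := by
      intro x
      have h1 := ((diff_of_one hv1 x).hasFDerivAt).pow 2
      have h2 := (hasStrictFDerivAt_norm_sq x).hasFDerivAt.const_mul κ
      have h3 := h1.add h2
      have h4 : HasFDerivAt (fun x : E => v x ^ 2 + κ * ‖x‖ ^ 2) _ x := h3
      rw [h4.fderiv]
      simp only [add_apply, smul_apply, innerSL_apply_apply,
        real_inner_self_eq_norm_sq, smul_eq_mul, nsmul_eq_mul]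
      push_cast
      ring
    have hint : ∫ x, fderiv ℝ (fun x : E => v x ^ 2 + κ * ‖x‖ ^ 2) x x * bw r x ^ 2 = 2 * M := by
      rw [hM, ← integral_const_mul]
      refine integral_congr_ae (Eventually.of_forall fun x => ?_)
      simp only
      rw [hder x]
      ring
    rw [hint] at h
    have e : (fun s => ∫ x : E, (v x ^ 2 + κ * ‖x‖ ^ 2) * bw s x ^ 2) = HH v κ := rfl
    rw [e] at h
    convert h using 2
    rw [show (∫ x : E, (v x ^ 2 + κ * ‖x‖ ^ 2) * bw r x ^ 2) = HH v κ r from rfl]
    push_cast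
    rw [a1]
    ring
  · rw [a1]
    have key : ∀ t : ℝ, 0 ≤ HH v κ r * (t * t) + (2 * M) * t + JJ v κ r := by
      intro t
      have i1 := (integrable_bw hr (g := fun x : E => v x ^ 2 + κ * ‖x‖ ^ 2)
        (by fun_prop) 2 (by norm_num)).const_mul (t * t)
      have i2 := (integrable_bw hr (g := fun x : E => v x * fderiv ℝ v x x + κ * ‖x‖ ^ 2)
        ((cv.mul cf).add (by fun_prop)) 2 (by norm_num)).const_mul (2 * t)
      have i3 := (integrable_bw hr (g := fun x : E => fderiv ℝ v x x ^ 2 + κ * ‖x‖ ^ 2)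
        ((cf.pow 2).add (by fun_prop)) 2 (by norm_num))
      have e : HH v κ r * (t * t) + (2 * M) * t + JJ v κ r =
          ∫ x : E, ((t * v x + fderiv ℝ v x x) ^ 2 + κ * (t + 1) ^ 2 * ‖x‖ ^ 2) * bw r x ^ 2 := by
        unfold HH JJ
        rw [hM]
        rw [mul_comm (∫ x : E, (v x ^ 2 + κ * ‖x‖ ^ 2) * bw r x ^ 2) (t * t),
          show 2 * (∫ x : E, (v x * fderiv ℝ v x x + κ * ‖x‖ ^ 2) * bw r x ^ 2) * t =
            (2 * t) * (∫ x : E, (v x * fderiv ℝ v x x + κ * ‖x‖ ^ 2) * bw r x ^ 2) by ring,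
          ← integral_const_mul, ← integral_const_mul, ← integral_add i1 i2]
        have i12 : Integrable (fun x : E => t * t * ((v x ^ 2 + κ * ‖x‖ ^ 2) * bw r x ^ 2) +
            2 * t * ((v x * fderiv ℝ v x x + κ * ‖x‖ ^ 2) * bw r x ^ 2)) := i1.add i2
        rw [← integral_add i12 i3]
        refine integral_congr_ae (Eventually.of_forall fun x => ?_)
        simp only
        ring
      rw [e]
      apply integral_nonneg
      intro x
      simp only [Pi.zero_apply]
      positivity
    have := discrim_le_zero key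
    unfold discrim at this
    nlinarith
  · intro G hG1 hG2
    have a4 := a3 G hG1 hG2
    have hφ : ContDiff ℝ 1 (fun x : E => gsq v x + 3 * κ) :=
      (contDiff_gsq hv).add contDiff_const
    have h := hG (fun x : E => gsq v x + 3 * κ) 3 r hφ (by norm_num) hr
    have hder : ∀ x : E, fderiv ℝ (fun x : E => gsq v x + 3 * κ) x x = fderiv ℝ (gsq v) x x := by
      intro x
      rw [fderiv_add_const]
    simp only [hder] at h
    rw [a4] at h
    have e : (fun s => ∫ x : E, (gsq v x + 3 * κ) * bw s x ^ 3) = II v κ := rfl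
    rw [e] at h
    have e2 : (∫ x : E, (gsq v x + 3 * κ) * bw r x ^ 3) = II v κ r := rfl
    rw [e2] at h
    have e3 : II v κ r = (∫ x, gsq v x * bw r x ^ 3) + 3 * κ * ∫ x, bw r x ^ 3 := by
      unfold II
      rw [← integral_const_mul, ← integral_add (integrable_bw hr cg 3 (by norm_num))
        (integrable_bw hr (g := fun _ => 3 * κ) continuous_const 3 (by norm_num))]
      refine integral_congr_ae (Eventually.of_forall fun x => ?_)
      simp only
      ring
    have e4 : JJ v κ r = (∫ x, fderiv ℝ v x x ^ 2 * bw r x ^ 2) +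
        κ * ∫ x : E, ‖x‖ ^ 2 * bw r x ^ 2 := by
      unfold JJ
      rw [← integral_const_mul, ← integral_add (integrable_bw hr
        (g := fun x : E => fderiv ℝ v x x ^ 2) (cf.pow 2) 2 (by norm_num))
        ((integrable_bw hr (g := fun x : E => ‖x‖ ^ 2) (by fun_prop) 2 (by norm_num)).const_mul κ)]
      refine integral_congr_ae (Eventually.of_forall fun x => ?_)
      simp only
      ring
    convert h using 2
    push_cast
    rw [e4]
    have e5 : (∫ x, gsq v x * bw r x ^ 3) = II v κ r - 3 * κ * ∫ x, bw r x ^ 3 := by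
      rw [e3]; ring
    rw [e5, a2]
    ring

end Pool.Agent.Helper31.HS3.FQH
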