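import Pool.Agent.Helper35.HS3.GoalsA

/-!
# Packet HS3-MINU: the minimum principle on arbitrary open sets
-/

namespace Pool.Agent.Helper31.HS3.MINU

open MeasureTheory Set Filter Topology Metric
open scoped ContDiff
open Pool.Agent.Helper35.HS3

theorem lap_aux (w : E → ℝ) (ε : ℝ) (x : E) : lap (fun y => -w y - ε) x = -lap w x := by
  have h1 : ∀ i, pd i (fun y => -w y - ε) = fun y => -pd i w y := by
    intro i
    funext y
    rw [pd_def, fderiv_sub_const, ← pd_def, pd_neg]
  unfold lap
  rw [← Finset.sum_neg_distrib]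
  refine Finset.sum_congr rfl fun i _ => ?_
  rw [h1, pd_neg]

theorem proof : MAXP_stmt → MINU_stmt := by
  intro hM U w hU hc hcd hlap hfr hinf x hx
  by_contra hneg
  push Not at hneg
  obtain ⟨ε, hε, hε2⟩ : ∃ ε : ℝ, 0 < ε ∧ w x < -ε := ⟨-w x / 2, by linarith, by linarith⟩
  obtain ⟨R, hR⟩ := hinf ε hε
  obtain ⟨R', hR1, hR2⟩ : ∃ R' : ℝ, R ≤ R' ∧ ‖x‖ < R' :=
    ⟨max R (‖x‖ + 1), le_max_left _ _, lt_of_lt_of_le (by linarith) (le_max_right _ _)⟩
  have hsub : closure (U ∩ ball 0 R') ⊆ closure U := closure_mono inter_subset_left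
  have hsub2 : closure (U ∩ ball (0 : E) R') ⊆ closedBall 0 R' :=
    (closure_mono inter_subset_right).trans closure_ball_subset_closedBall
  have h := hM (U ∩ ball 0 R') (fun y => -w y - ε) (hU.inter isOpen_ball)
    (isBounded_ball.subset inter_subset_right) ((hc.mono hsub).neg.sub continuousOn_const)
    (fun y hy => (hcd y hy.1).neg.sub contDiffAt_const)
    (fun y hy => by rw [lap_aux]; linarith [hlap y hy.1]) ?_ x ⟨hx, by
      rw [mem_ball, dist_zero_right]; exact hR2⟩
  · have : -w x - ε ≤ 0 := h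
    linarith
  · intro y hy
    show -w y - ε ≤ 0
    have hyc : y ∈ closure (U ∩ ball 0 R') := frontier_subset_closure hy
    have hyn : y ∉ U ∩ ball 0 R' := by
      have := hy.2
      rwa [(hU.inter isOpen_ball).interior_eq] at this
    by_cases hyU : y ∈ U
    · have h1 : R' ≤ ‖y‖ := by
        by_contra h2
        push Not at h2
        exact hyn ⟨hyU, by rw [mem_ball, dist_zero_right]; exact h2⟩
      have := hR y hyU (hR1.trans h1)
      linarith
    · have h1 : y ∈ frontier U := ⟨hsub hyc, by rw [hU.interior_eq]; exact hyU⟩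
      have := hfr y h1
      linarith

end Pool.Agent.Helper31.HS3.MINU
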